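import Mathlib
import Pool.Agent.Lib.MP_544bd1_al.Defs
import Pool.Agent.Lib.MP_544bd1_al.GenDefs
import Pool.Agent.Lib.MP_544bd1_al.CritDefs
import Pool.Agent.Lib.MP_544bd1_al.CritComb

/-!
# Finiteness of free Burnside groups: every exponent reduces to rank four and prime powers

Let `n ≥ 1` and assume that the nonabelian simple sections of the group `B(4,n)` are generated by two
elements in case this group is finite (this condition holds for all finite groups by the classification
of the finite simple groups). Then all groups `B(m,n)` are finite if and only if `B(4,n)` is finite and
for every prime power `q ≥ 7` dividing `n` exactly: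

* if `B(r,q)` is finite for all `r ≤ 3 * |B(4,n/q)| + 1` and if, for every `k` and every `e` such that
  all groups `B(m,e)` are finite, the `k`-th derived subgroup of the normal closure of `x ^ e` in
  `B(k+1,q)`, where `x` is the first free generator, is nontrivial, then `B(m,q)` is finite for all `m`.

For example, for `n = 30, 60` there is no such `q`: under the condition on the simple sections and for
`m ≥ 4` the group `B(m,n)` is finite if and only if `B(4,n)` is finite.
-/

namespace Pool.Agent.Results.MP_073a0c_al.GeneralExponent

open Pool.Agent.Lib.MP_544bd1_al Subgroup

/-- **Rank four and prime powers at least seven decide.** -/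
theorem result (n : ℕ) (hn : 0 < n)
    (hgen : Finite (FreeBurnside 4 n) → SimpleSectionsTwoGenerated (FreeBurnside 4 n)) :
    (∀ m : ℕ, Finite (FreeBurnside m n)) ↔
      Finite (FreeBurnside 4 n) ∧
        ∀ p : ℕ, p.Prime → p ∣ n → 7 ≤ p ^ n.factorization p →
          (∀ r ≤ 3 * Nat.card (FreeBurnside 4 (n / p ^ n.factorization p)) + 1,
            Finite (FreeBurnside r (p ^ n.factorization p))) →
          LongDerivedSeries (p ^ n.factorization p) →
          ∀ m : ℕ, Finite (FreeBurnside m (p ^ n.factorization p)) :=
  pair_four_comb n hn hgen

end Pool.Agent.Results.MP_073a0c_al.GeneralExponent
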