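import Mathlib
import Pool.Agent.Lib.MP_544bd1_al.Defs
import Pool.Agent.Lib.MP_544bd1_al.GenDefs
import Pool.Agent.Lib.MP_544bd1_al.CritComb
import Pool.Agent.Lib.MP_544bd1_al.IpH

/-!
# Inverted pairs decide the free Burnside groups of even exponent

Let `n` be even and assume

* (i) `n = p ^ a * q ^ b` with primes `p`, `q` or, more generally, all finite groups satisfying
  `x ^ n = 1` are soluble;
* (ii) `8` does not divide `n`, or no square of a Mersenne prime `2 ^ j - 1` with `2 ^ j ∣ n`
  divides `n`.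

Then all groups `B(m,n)` are finite if and only if

* in every group satisfying `x ^ n = 1` any two elements, the first of which is inverted by some `t`
  with `t ^ 2 = 1`, generate a finite subgroup, and
* for every prime power `q ≥ 7` exactly dividing `n`, if `B(4,q')` is finite, where
  `q' = gcd(q, n / 2)`, then all groups `B(m,q)` are finite.

In particular, let `n = 2 ^ a * 3` or `n = 2 ^ a * 5`, `a ≥ 1`. Then all groups `B(m,n)` are finite if
and only if the first condition holds and, if `a ≥ 3`, all groups `B(m,2 ^ a)` are finite.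
-/

namespace Pool.Agent.Results.MP_073a0c_al.InvertedPairs

open Pool.Agent.Lib.MP_544bd1_al Subgroup

/-- In every group satisfying `x ^ n = 1` any two elements, the first of which is inverted by some `t`
with `t ^ 2 = 1`, generate a finite subgroup. -/
def InvertedPairsFinite (n : ℕ) : Prop :=
  ∀ (G : Type) [Group G], (∀ g : G, g ^ n = 1) →
    ∀ t x y : G, t ^ 2 = 1 → t * x * t = x⁻¹ → Finite (closure {x, y})

/-- **Inverted pairs decide even exponents.** -/
theorem result :
    (∀ n : ℕ, 0 < n → 2 ∣ n →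
      ((∃ p q a b : ℕ, p.Prime ∧ q.Prime ∧ n = p ^ a * q ^ b) ∨
        ∀ (F : Type) [Group F] [Finite F], (∀ x : F, x ^ n = 1) → Group.IsSolvable F) →
      (¬ 8 ∣ n ∨ ∀ j : ℕ, (2 ^ j - 1).Prime → 2 ^ j ∣ n → ¬ (2 ^ j - 1) ^ 2 ∣ n) →
      ((∀ m : ℕ, Finite (FreeBurnside m n)) ↔ InvertedPairsFinite n ∧
        ∀ p : ℕ, p.Prime → p ∣ n → 7 ≤ p ^ n.factorization p →
          Finite (FreeBurnside 4 (Nat.gcd (p ^ n.factorization p) (n / 2))) →
          ∀ m : ℕ, Finite (FreeBurnside m (p ^ n.factorization p)))) ∧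
    ∀ a p : ℕ, 1 ≤ a → p = 3 ∨ p = 5 →
      ((∀ m : ℕ, Finite (FreeBurnside m (2 ^ a * p))) ↔
        InvertedPairsFinite (2 ^ a * p) ∧
          (3 ≤ a → ∀ m : ℕ, Finite (FreeBurnside m (2 ^ a)))) := by
  refine ⟨fun n hn h2 hsol hsq => ?_, fun a p ha hp => ?_⟩
  · rw [← E5.mem_iff_all_finite hn]
    refine (ip_final hn h2 hsol hsq).trans (and_congr_right fun _ => ?_)
    refine forall_congr' fun p => forall_congr' fun hp => forall_congr' fun _ =>
      forall_congr' fun _ => forall_congr' fun _ => ?_
    exact E5.mem_iff_all_finite (pow_pos hp.pos _)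
  · have hpos : 0 < 2 ^ a * p := by rcases hp with rfl | rfl <;> positivity
    rw [← E5.mem_iff_all_finite hpos, ip_final_eight ha hp]
    refine and_congr_right fun _ => ⟨fun h _ => (E5.mem_iff_all_finite (by positivity)).1 h,
      fun h => ?_⟩
    by_cases h3 : 3 ≤ a
    · exact (E5.mem_iff_all_finite (by positivity)).2 (h h3)
    · exact mem_of_dvd (pow_dvd_pow 2 (show a ≤ 2 by omega)) four_mem

end Pool.Agent.Results.MP_073a0c_al.InvertedPairs
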