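import Mathlib
import Pool.Agent.Lib.MP_544bd1_al.Defs
import Pool.Agent.Lib.MP_544bd1_al.CritDefs
import Pool.Agent.Lib.MP_544bd1_al.CritComb

/-!
# Finiteness of free Burnside groups: composite exponents reduce to rank two

Let `n` be a product of at most two prime powers or, more generally, let `B(2,n)` be infinite or soluble.
Then all groups `B(m,n)` are finite if and only if `B(2,n)` is finite and all groups `B(m,q)` are finite,
where `q` runs through the prime powers `q ≥ 7` which divide `n` exactly (and `q = 5` if `n = 5`). For
these `q` it even suffices to know that all `B(m,q)` are finite under the following two conditions: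

* `B(r,q)` is finite for all `r ≤ |B(2,n/q)| + 1`;
* for every `k`, and for every `e` such that all groups `B(m,e)` are finite, the `k`-th derived
  subgroup of the normal closure of `x ^ e` in `B(k+1,q)`, where `x` is the first free generator, is
  nontrivial.

For example, for `n = 10, 12, 15, 20` there is no such `q`: for `m ≥ 2` the group `B(m,n)` is finite if and
only if `B(2,n)` is finite.
-/

namespace Pool.Agent.Results.MP_073a0c_al.RankTwo

open Pool.Agent.Lib.MP_544bd1_al Subgroup

/-- **Rank two and prime powers at least seven decide.** -/
theorem result (n : ℕ) (hn : 0 < n)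
    (hsol : (∃ p q a b : ℕ, p.Prime ∧ q.Prime ∧ n = p ^ a * q ^ b) ∨
      (Finite (FreeBurnside 2 n) → Group.IsSolvable (FreeBurnside 2 n))) :
    (∀ m : ℕ, Finite (FreeBurnside m n)) ↔
      Finite (FreeBurnside 2 n) ∧
        ∀ p : ℕ, p.Prime → p ∣ n → (7 ≤ p ^ n.factorization p ∨ n = 5) →
          (∀ r ≤ Nat.card (FreeBurnside 2 (n / p ^ n.factorization p)) + 1,
            Finite (FreeBurnside r (p ^ n.factorization p))) →
          LongDerivedSeries (p ^ n.factorization p) →
          ∀ m : ℕ, Finite (FreeBurnside m (p ^ n.factorization p)) :=
  pair_two_comb hn hsol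

end Pool.Agent.Results.MP_073a0c_al.RankTwo
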